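import Mathlib

/-! Sign-invariant norms on `ℝⁿ` are monotone, and log-convex along coordinate scalings. -/

set_option autoImplicit false

namespace Pool.Agent.H910.HS

variable {n : ℕ} (N : (Fin n → ℝ) → ℝ)

theorem mono_step (hadd : ∀ x y, N (x + y) ≤ N x + N y)
    (hsm : ∀ (c : ℝ) x, N (c • x) = |c| * N x)
    (hs : ∀ (i : Fin n) x, N (Function.update x i (-(x i))) = N x)
    (x : Fin n → ℝ) (i : Fin n) (r : ℝ) (hr : |r| ≤ |x i|) :
    N (Function.update x i r) ≤ N x := by
  by_cases hx : x i = 0
  · have hr0 : r = 0 := by simpa [hx] using hr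
    have : Function.update x i r = x := by rw [hr0, ← hx, Function.update_eq_self]
    rw [this]
  · obtain ⟨c, hc⟩ : ∃ c, c = r / x i := ⟨_, rfl⟩
    have hcx : r = c * x i := by rw [hc]; field_simp
    have hc1 : |c| ≤ 1 := by
      rw [hc, abs_div]
      exact div_le_one_of_le₀ hr (abs_nonneg _)
    obtain ⟨h1, h2⟩ := abs_le.1 hc1
    have e : Function.update x i r =
        ((1 + c) / 2) • x + ((1 - c) / 2) • Function.update x i (-(x i)) := by
      ext j
      by_cases hj : j = i
      · subst hj
        simp only [Function.update_self, Pi.add_apply, Pi.smul_apply, smul_eq_mul, hcx]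
        ring
      · simp only [Function.update_of_ne hj, Pi.add_apply, Pi.smul_apply, smul_eq_mul]
        ring
    rw [e]
    refine (hadd _ _).trans ?_
    rw [hsm, hsm, hs, abs_of_nonneg (by linarith), abs_of_nonneg (by linarith)]
    linarith

theorem mono (hadd : ∀ x y, N (x + y) ≤ N x + N y)
    (hsm : ∀ (c : ℝ) x, N (c • x) = |c| * N x)
    (hs : ∀ (i : Fin n) x, N (Function.update x i (-(x i))) = N x)
    (x y : Fin n → ℝ) (h : ∀ i, |x i| ≤ |y i|) : N x ≤ N y := by
  have key : ∀ s : Finset (Fin n), N (fun i => if i ∈ s then x i else y i) ≤ N y := by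
    intro s
    induction s using Finset.induction_on with
    | empty => simp
    | insert a s ha ih =>
      have e : (fun i => if i ∈ insert a s then x i else y i) =
          Function.update (fun i => if i ∈ s then x i else y i) a (x a) := by
        ext j
        by_cases hj : j = a
        · subst hj; simp
        · simp [Function.update_of_ne hj, Finset.mem_insert, hj]
      rw [e]
      refine (mono_step N hadd hsm hs _ a (x a) ?_).trans ih
      simp only [ha, if_false]
      exact h a
  have := key Finset.univ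
  simpa using this

theorem logconv (hadd : ∀ x y, N (x + y) ≤ N x + N y)
    (hsm : ∀ (c : ℝ) x, N (c • x) = |c| * N x)
    (hs : ∀ (i : Fin n) x, N (Function.update x i (-(x i))) = N x)
    (q : Fin n → ℝ) (s t : Fin n → ℝ) (l : ℝ) (h0 : 0 ≤ l) (h1 : l ≤ 1)
    (ha : 0 < N (fun i => Real.exp (s i) * q i)) (hb : 0 < N (fun i => Real.exp (t i) * q i)) :
    N (fun i => Real.exp (l * s i + (1 - l) * t i) * q i) ≤
      N (fun i => Real.exp (s i) * q i) ^ l * N (fun i => Real.exp (t i) * q i) ^ (1 - l) := by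
  obtain ⟨a, hae⟩ : ∃ a, a = N (fun i => Real.exp (s i) * q i) := ⟨_, rfl⟩
  obtain ⟨b, hbe⟩ : ∃ b, b = N (fun i => Real.exp (t i) * q i) := ⟨_, rfl⟩
  rw [← hae] at ha ⊢
  rw [← hbe] at hb ⊢
  have hal : 0 < a ^ l := Real.rpow_pos_of_pos ha _
  have hbl : 0 < b ^ (1 - l) := Real.rpow_pos_of_pos hb _
  have hcpos : 0 < a ^ l * b ^ (1 - l) := mul_pos hal hbl
  have hm : N (fun i => Real.exp (l * s i + (1 - l) * t i) * q i) ≤
      N ((a ^ l * b ^ (1 - l) * (l / a)) • (fun i => Real.exp (s i) * q i) +
        (a ^ l * b ^ (1 - l) * ((1 - l) / b)) • (fun i => Real.exp (t i) * q i)) := by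
    refine mono N hadd hsm hs _ _ fun i => ?_
    have amgm := Real.geom_mean_le_arith_mean2_weighted h0 (by linarith : 0 ≤ 1 - l)
      (div_nonneg (Real.exp_pos (s i)).le ha.le) (div_nonneg (Real.exp_pos (t i)).le hb.le)
      (by ring)
    rw [Real.div_rpow (Real.exp_pos _).le ha.le, Real.div_rpow (Real.exp_pos _).le hb.le,
      ← Real.exp_mul, ← Real.exp_mul] at amgm
    have e1 : Real.exp (l * s i + (1 - l) * t i) =
        Real.exp (s i * l) * Real.exp (t i * (1 - l)) := by
      rw [← Real.exp_add]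
      congr 1
      ring
    have e2 : Real.exp (l * s i + (1 - l) * t i) ≤
        a ^ l * b ^ (1 - l) * (l / a) * Real.exp (s i) +
          a ^ l * b ^ (1 - l) * ((1 - l) / b) * Real.exp (t i) := by
      have : a ^ l * b ^ (1 - l) *
          (Real.exp (s i * l) / a ^ l * (Real.exp (t i * (1 - l)) / b ^ (1 - l))) ≤
          a ^ l * b ^ (1 - l) * (l * (Real.exp (s i) / a) + (1 - l) * (Real.exp (t i) / b)) :=
        mul_le_mul_of_nonneg_left amgm hcpos.le
      have e3 : a ^ l * b ^ (1 - l) *
          (Real.exp (s i * l) / a ^ l * (Real.exp (t i * (1 - l)) / b ^ (1 - l))) =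
          Real.exp (s i * l) * Real.exp (t i * (1 - l)) := by
        field_simp
      rw [e3, ← e1] at this
      refine this.trans (le_of_eq ?_)
      ring
    simp only [Pi.add_apply, Pi.smul_apply, smul_eq_mul]
    have e4 : a ^ l * b ^ (1 - l) * (l / a) * (Real.exp (s i) * q i) +
        a ^ l * b ^ (1 - l) * ((1 - l) / b) * (Real.exp (t i) * q i) =
        (a ^ l * b ^ (1 - l) * (l / a) * Real.exp (s i) +
          a ^ l * b ^ (1 - l) * ((1 - l) / b) * Real.exp (t i)) * q i := by ring
    rw [e4, abs_mul, abs_mul]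
    refine mul_le_mul_of_nonneg_right ?_ (abs_nonneg _)
    rw [abs_of_pos (Real.exp_pos _)]
    exact e2.trans (le_abs_self _)
  refine hm.trans ((hadd _ _).trans ?_)
  rw [hsm, hsm, ← hae, ← hbe, abs_of_nonneg, abs_of_nonneg]
  · refine le_of_eq ?_
    field_simp
    ring
  · exact mul_nonneg hcpos.le (div_nonneg (by linarith) hb.le)
  · exact mul_nonneg hcpos.le (div_nonneg h0 ha.le)

end Pool.Agent.H910.HS
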