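import Pool.Agent.H910R2.HS.Imp
import Pool.Agent.H910R2.HS.Lat

/-! Hyperplane sections of unconditional convex bodies. -/

set_option autoImplicit false

open MeasureTheory Set Filter Topology Metric
open scoped Pointwise RealInnerProductSpace ENNReal

namespace Pool.Agent.H910.HS

open Pool.Agent.H638.IB

theorem hSLAB : S_SLAB := SLAB_ok hGB
theorem hMP : S_MP := MP_ok
theorem hHSEC : S_HSEC := HSEC_ok hSLAB hMP hGB
theorem hCOV : S_COV := COV_ok hSLAB hGS
theorem hBU2 : S_BU2 := BU2_ok hHSEC hMP hCOV hGS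
theorem hBND : S_BND := BND_ok hGB hHOM BALL_ok hSLAB
theorem hBUC : S_BUC := BUC_ok BU1_ok hBU2 HP_ok LCR_ok hBND
theorem hBUS : S_BUS := BUS_ok hBUC hCOV hGS hHOM

/-- The diagonal linear equivalence. -/
noncomputable def Dg {n : ℕ} (a : Fin n → ℝ) (ha : ∀ i, a i ≠ 0) : E n ≃ₗ[ℝ] E n where
  toFun x := WithLp.toLp 2 (fun i => a i * x i)
  invFun x := WithLp.toLp 2 (fun i => (a i)⁻¹ * x i)
  map_add' x y := by ext i; simp [mul_add]
  map_smul' c x := by ext i; simp; ring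
  left_inv x := by ext i; simp [ha i]
  right_inv x := by ext i; simp [ha i]

theorem Dg_apply {n : ℕ} (a : Fin n → ℝ) (ha : ∀ i, a i ≠ 0) (x : E n) (i : Fin n) :
    Dg a ha x i = a i * x i := rfl

theorem det_Dg {n : ℕ} (a : Fin n → ℝ) (ha : ∀ i, a i ≠ 0) :
    LinearMap.det ((Dg a ha : E n ≃ₗ[ℝ] E n) : E n →ₗ[ℝ] E n) = ∏ i, a i := by
  rw [← LinearMap.det_toMatrix (EuclideanSpace.basisFun (Fin n) ℝ).toBasis]
  have : LinearMap.toMatrix (EuclideanSpace.basisFun (Fin n) ℝ).toBasis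
      (EuclideanSpace.basisFun (Fin n) ℝ).toBasis ((Dg a ha : E n ≃ₗ[ℝ] E n) : E n →ₗ[ℝ] E n) =
      Matrix.diagonal a := by
    ext i j
    rw [LinearMap.toMatrix_apply]
    by_cases hij : i = j
    · subst hij
      simp [Dg]
    · simp [Dg, Matrix.diagonal_apply, hij]
  rw [this, Matrix.det_diagonal]

theorem adj_Dg {n : ℕ} (a : Fin n → ℝ) (ha : ∀ i, a i ≠ 0) :
    LinearMap.adjoint ((Dg a ha : E n ≃ₗ[ℝ] E n) : E n →ₗ[ℝ] E n) = (Dg a ha : E n →ₗ[ℝ] E n) := by
  symm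
  rw [LinearMap.eq_adjoint_iff]
  intro x y
  simp only [LinearEquiv.coe_coe, PiLp.inner_apply, RCLike.inner_apply, conj_trivial, Dg_apply]
  refine Finset.sum_congr rfl fun i _ => ?_
  ring

theorem A_Dg {n : ℕ} (K : Set (E n)) (hK : Body K) (a : Fin n → ℝ) (ha : ∀ i, a i ≠ 0) (x : E n)
    (hx : x ≠ 0) : A (Dg a ha '' K) x = |∏ i, a i| * A K (Dg a ha x) := by
  have := hCOV K hK (Dg a ha) x hx
  rw [det_Dg, adj_Dg] at this
  exact this

/-- Sign of a coordinate changed. -/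
noncomputable def flip {n : ℕ} (i : Fin n) : Fin n → ℝ := fun j => if j = i then -1 else 1

theorem flip_ne {n : ℕ} (i : Fin n) : ∀ j, flip i j ≠ 0 := by
  intro j
  unfold flip
  split_ifs <;> norm_num

theorem abs_prod_flip {n : ℕ} (i : Fin n) : |∏ j, flip i j| = 1 := by
  rw [Finset.abs_prod]
  refine Finset.prod_eq_one fun j _ => ?_
  unfold flip
  split_ifs <;> simp

/-- Unconditional sets. -/
def Unc {n : ℕ} (K : Set (E n)) : Prop := ∀ x ∈ K, ∀ y : E n, (∀ i, |y i| = |x i|) → y ∈ K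

theorem flip_image {n : ℕ} (K : Set (E n)) (hu : Unc K) (i : Fin n) :
    Dg (flip i) (flip_ne i) '' K = K := by
  have habs : ∀ (x : E n) j, |Dg (flip i) (flip_ne i) x j| = |x j| := by
    intro x j
    rw [Dg_apply, abs_mul]
    have : |flip i j| = 1 := by unfold flip; split_ifs <;> simp
    rw [this, one_mul]
  refine Subset.antisymm ?_ ?_
  · rintro y ⟨x, hx, rfl⟩
    exact hu x hx _ (habs x)
  · intro x hx
    refine ⟨Dg (flip i) (flip_ne i) x, hu x hx _ (habs x), ?_⟩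
    ext j
    rw [Dg_apply, Dg_apply, ← mul_assoc]
    have : flip i j * flip i j = 1 := by unfold flip; split_ifs <;> simp
    rw [this, one_mul]

theorem A_flip {n : ℕ} (K : Set (E n)) (hK : Body K) (hu : Unc K) (i : Fin n) (x : E n)
    (hx : x ≠ 0) : A K (Dg (flip i) (flip_ne i) x) = A K x := by
  have := A_Dg K hK (flip i) (flip_ne i) x hx
  rw [flip_image K hu i, abs_prod_flip, one_mul] at this
  exact this.symm

theorem A_zero {n : ℕ} (K : Set (E n)) : A K (0 : E n) = 0 := by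
  simp [A]

/-- The norm of Busemann's theorem. -/
noncomputable def Nm {n : ℕ} (K : Set (E n)) (x : Fin n → ℝ) : ℝ := (A K (WithLp.toLp 2 x))⁻¹

theorem Nm_zero {n : ℕ} (K : Set (E n)) : Nm K 0 = 0 := by
  unfold Nm
  rw [WithLp.toLp_zero, A_zero, inv_zero]

theorem Nm_nonneg {n : ℕ} (K : Set (E n)) (x : Fin n → ℝ) : 0 ≤ Nm K x :=
  inv_nonneg.2 ((hHOM K).2.1 _)

theorem Nm_smul {n : ℕ} (K : Set (E n)) (c : ℝ) (x : Fin n → ℝ) : Nm K (c • x) = |c| * Nm K x := by
  by_cases hc : c = 0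
  · subst hc
    rw [zero_smul, Nm_zero, abs_zero, zero_mul]
  · unfold Nm
    rw [WithLp.toLp_smul, (hHOM K).1 c _ hc, mul_inv, inv_inv]

theorem Nm_flip {n : ℕ} (K : Set (E n)) (hK : Body K) (hu : Unc K) (i : Fin n) (x : Fin n → ℝ) :
    Nm K (Function.update x i (-(x i))) = Nm K x := by
  by_cases hx : x = 0
  · subst hx
    have : Function.update (0 : Fin n → ℝ) i (-((0 : Fin n → ℝ) i)) = 0 := by
      ext j
      by_cases hj : j = i
      · subst hj; simp
      · simp [Function.update_of_ne hj]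
    rw [this]
  · unfold Nm
    have hx' : WithLp.toLp 2 x ≠ (0 : E n) := by
      intro h
      apply hx
      have := congrArg WithLp.ofLp h
      simpa using this
    rw [← A_flip K hK hu i _ hx']
    congr 2
    ext j
    rw [Dg_apply]
    by_cases hj : j = i
    · subst hj; simp [flip]
    · simp [Function.update_of_ne hj, flip, hj]

theorem Nm_add {n : ℕ} (K : Set (E (n + 2))) (hK : Body K) (x y : Fin (n + 2) → ℝ) :
    Nm K (x + y) ≤ Nm K x + Nm K y := by
  by_cases hx : x = 0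
  · subst hx; rw [zero_add, Nm_zero, zero_add]
  by_cases hy : y = 0
  · subst hy; rw [add_zero, Nm_zero, add_zero]
  by_cases hxy : x + y = 0
  · rw [hxy, Nm_zero]
    exact add_nonneg (Nm_nonneg _ _) (Nm_nonneg _ _)
  have h0 : ∀ z : Fin (n + 2) → ℝ, z ≠ 0 → WithLp.toLp 2 z ≠ (0 : E (n + 2)) := by
    intro z hz h
    apply hz
    have := congrArg WithLp.ofLp h
    simpa using this
  unfold Nm
  rw [WithLp.toLp_add]
  refine hBUS K hK _ _ (h0 x hx) (h0 y hy) ?_
  rw [← WithLp.toLp_add]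
  exact h0 _ hxy

theorem A_pos {n : ℕ} (K : Set (E (n + 1))) (hK : Body K) (x : E (n + 1)) (hx : x ≠ 0) :
    0 < A K x := by
  obtain ⟨c, C, hc, hC, h⟩ := hBND K hK
  exact lt_of_lt_of_le (div_pos hc (norm_pos_iff.2 hx)) (h x hx).1

theorem Nm_pos {n : ℕ} (K : Set (E (n + 1))) (hK : Body K) (x : Fin (n + 1) → ℝ) (hx : x ≠ 0) :
    0 < Nm K x := by
  unfold Nm
  refine inv_pos.2 (A_pos K hK _ ?_)
  intro h
  apply hx
  have := congrArg WithLp.ofLp h
  simpa using this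

/-- Hyperplane sections: the log-concavity of `t ↦ A (D_t K) q`. -/
theorem main_A {n : ℕ} (K : Set (E (n + 2))) (hK : Body K) (hu : Unc K) (q : E (n + 2))
    (hq : q ≠ 0) (s t : Fin (n + 2) → ℝ) (l : ℝ) (h0 : 0 ≤ l) (h1 : l ≤ 1) :
    A (Dg (fun i => Real.exp (s i)) (fun _ => (Real.exp_pos _).ne') '' K) q ^ l *
      A (Dg (fun i => Real.exp (t i)) (fun _ => (Real.exp_pos _).ne') '' K) q ^ (1 - l) ≤
    A (Dg (fun i => Real.exp (l * s i + (1 - l) * t i)) (fun _ => (Real.exp_pos _).ne') '' K) q := by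
  have hval : ∀ u : Fin (n + 2) → ℝ,
      A (Dg (fun i => Real.exp (u i)) (fun _ => (Real.exp_pos _).ne') '' K) q =
        Real.exp (∑ i, u i) * (Nm K (fun i => Real.exp (u i) * q i))⁻¹ := by
    intro u
    rw [A_Dg K hK _ _ q hq, ← Real.exp_sum, abs_of_pos (Real.exp_pos _)]
    unfold Nm
    rw [inv_inv]
    rfl
  have hpos : ∀ u : Fin (n + 2) → ℝ, 0 < Nm K (fun i => Real.exp (u i) * q i) := by
    intro u
    refine Nm_pos K hK _ ?_
    intro h
    apply hq
    ext i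
    have := congrFun h i
    simpa using this
  have key := logconv (Nm K) (Nm_add K hK) (Nm_smul K) (Nm_flip K hK hu) (fun i => q i) s t l h0 h1
    (hpos s) (hpos t)
  rw [hval, hval, hval, Real.mul_rpow (Real.exp_pos _).le (inv_nonneg.2 (hpos s).le),
    Real.mul_rpow (Real.exp_pos _).le (inv_nonneg.2 (hpos t).le), ← Real.exp_mul, ← Real.exp_mul,
    Real.inv_rpow (hpos s).le, Real.inv_rpow (hpos t).le]
  have hps := Real.rpow_pos_of_pos (hpos s) l
  have hpt := Real.rpow_pos_of_pos (hpos t) (1 - l)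
  have e1 : Real.exp ((∑ i, s i) * l) * ((Nm K (fun i => Real.exp (s i) * q i)) ^ l)⁻¹ *
      (Real.exp ((∑ i, t i) * (1 - l)) * ((Nm K (fun i => Real.exp (t i) * q i)) ^ (1 - l))⁻¹) =
      Real.exp (∑ i, (l * s i + (1 - l) * t i)) *
        ((Nm K (fun i => Real.exp (s i) * q i)) ^ l *
          (Nm K (fun i => Real.exp (t i) * q i)) ^ (1 - l))⁻¹ := by
    rw [Finset.sum_add_distrib, ← Finset.mul_sum, ← Finset.mul_sum, Real.exp_add, mul_inv,
      mul_comm (∑ i, s i) l, mul_comm (∑ i, t i) (1 - l)]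
    ring
  rw [e1]
  refine mul_le_mul_of_nonneg_left ?_ (Real.exp_pos _).le
  exact inv_anti₀ (hpos _) key

end Pool.Agent.H910.HS
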