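import Pool.Agent.H638.IB.T_GB
import Pool.Agent.H638.IB.T_GC
import Pool.Agent.H638.IB.T_GS
import Pool.Agent.H638.IB.T_BU1
import Pool.Agent.H638.IB.T_SLAB
import Pool.Agent.H638.IB.T_MP
import Pool.Agent.H638.IB.T_HSEC
import Pool.Agent.H638.IB.T_COV
import Pool.Agent.H638.IB.T_BU2
import Pool.Agent.H638.IB.T_HP
import Pool.Agent.H638.IB.T_LCR
import Pool.Agent.H638.IB.T_HOM
import Pool.Agent.H638.IB.T_BALL
import Pool.Agent.H638.IB.T_BND
import Pool.Agent.H638.IB.T_BUC
import Pool.Agent.H638.IB.T_BUS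

/-! Busemann's theorem from the library H638.IB. -/

set_option autoImplicit false

namespace Pool.Agent.H910.HS

open Pool.Agent.H638.IB

theorem hGB : S_GB := GB_ok
theorem hGC : S_GC := GC_ok
theorem hGS : S_GS := GS_ok
theorem hHOM : S_HOM := HOM_ok
end Pool.Agent.H910.HS
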