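import Pool.Agent.H910R2.HS.Hyp

/-! Sections of dimension `1`, `n - 1`, `n` of scaled unconditional convex bodies. -/

set_option autoImplicit false

open MeasureTheory Set Filter Topology Metric
open scoped Pointwise RealInnerProductSpace ENNReal

namespace Pool.Agent.H910.HS

open Pool.Agent.H638.IB

/-- `D_t U`, the image of `U` under the diagonal matrix with entries `exp (t i)`. -/
def scaled {n : ℕ} (t : Fin n → ℝ) (U : Set (E n)) : Set (E n) :=
  (fun x => WithLp.toLp 2 (fun i => Real.exp (t i) * x i)) '' U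

/-- The volume of the section `D_t U ∩ H`. -/
noncomputable def secV {n : ℕ} (U : Set (E n)) (H : Submodule ℝ (E n)) (t : Fin n → ℝ) : ℝ :=
  ((volume : Measure H) {y | (y : E n) ∈ scaled t U}).toReal

theorem scaled_eq {n : ℕ} (t : Fin n → ℝ) (U : Set (E n)) :
    scaled t U = Dg (fun i => Real.exp (t i)) (fun _ => (Real.exp_pos _).ne') '' U := rfl

/-- The inequality to be proved. -/
def Good {n : ℕ} (F : (Fin n → ℝ) → ℝ) : Prop := (∀ t, 0 < F t) ∧
  ∀ (s t : Fin n → ℝ) (l : ℝ), 0 ≤ l → l ≤ 1 →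
    F s ^ l * F t ^ (1 - l) ≤ F (fun i => l * s i + (1 - l) * t i)

theorem good_concave {n : ℕ} (F : (Fin n → ℝ) → ℝ) (h : Good F) :
    ConcaveOn ℝ univ (fun t => Real.log (F t)) := by
  refine ⟨convex_univ, fun s _ t _ a b ha hb hab => ?_⟩
  have hb' : b = 1 - a := by linarith
  subst hb'
  have h1 := h.2 s t a ha (by linarith)
  have e : (fun i => a * s i + (1 - a) * t i) = a • s + (1 - a) • t := by
    ext i; simp
  rw [e] at h1
  have h2 := Real.log_le_log (mul_pos (Real.rpow_pos_of_pos (h.1 s) _)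
    (Real.rpow_pos_of_pos (h.1 t) _)) h1
  rw [Real.log_mul (Real.rpow_pos_of_pos (h.1 s) _).ne' (Real.rpow_pos_of_pos (h.1 t) _).ne',
    Real.log_rpow (h.1 s), Real.log_rpow (h.1 t)] at h2
  exact h2

theorem good_smul {n : ℕ} (F : (Fin n → ℝ) → ℝ) (h : Good F) (c : ℝ) (hc : 0 < c) :
    Good (fun t => c * F t) := by
  refine ⟨fun t => mul_pos hc (h.1 t), fun s t l h0 h1 => ?_⟩
  have e : (c * F s) ^ l * (c * F t) ^ (1 - l) = c * (F s ^ l * F t ^ (1 - l)) := by
    rw [Real.mul_rpow hc.le (h.1 s).le, Real.mul_rpow hc.le (h.1 t).le]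
    have : c ^ l * c ^ (1 - l) = c := by
      rw [← Real.rpow_add hc]
      simp
    calc _ = (c ^ l * c ^ (1 - l)) * (F s ^ l * F t ^ (1 - l)) := by ring
      _ = _ := by rw [this]
  rw [e]
  exact mul_le_mul_of_nonneg_left (h.2 s t l h0 h1) hc.le

/-! ### Hyperplanes -/

theorem good_hyper {n : ℕ} (U : Set (E (n + 2))) (hU : Body U) (hu : Unc U) (q : E (n + 2))
    (hq : q ≠ 0) : Good (secV U (ℝ ∙ q)ᗮ) := by
  have hqn : 0 < ‖q‖ := norm_pos_iff.2 hq
  have hval : ∀ t, secV U (ℝ ∙ q)ᗮ t = ‖q‖ * A (scaled t U) q := by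
    intro t
    unfold A secVol secV
    field_simp
  have hG : Good (fun t => A (scaled t U) q) := by
    refine ⟨fun t => ?_, fun s t l h0 h1 => ?_⟩
    · refine A_pos _ ?_ q hq
      rw [scaled_eq]
      exact ((hGS U hU).2 _).1
    · exact main_A U hU hu q hq s t l h0 h1
  have := good_smul _ hG ‖q‖ hqn
  have e : secV U (ℝ ∙ q)ᗮ = fun t => ‖q‖ * A (scaled t U) q := funext hval
  rw [e]
  exact this

theorem exists_normal {n : ℕ} (H : Submodule ℝ (E n)) (hH : Module.finrank ℝ H + 1 = n) :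
    ∃ q : E n, q ≠ 0 ∧ H = (ℝ ∙ q)ᗮ := by
  have h1 := Submodule.finrank_add_finrank_orthogonal H
  rw [finrank_euclideanSpace_fin] at h1
  have h2 : Module.finrank ℝ Hᗮ = 1 := by omega
  obtain ⟨q, hq0, hq⟩ := finrank_eq_one_iff'.1 h2
  refine ⟨q, by simpa using hq0, ?_⟩
  have h3 : Hᗮ = ℝ ∙ (q : E n) := by
    ext x
    rw [Submodule.mem_span_singleton]
    constructor
    · intro hx
      obtain ⟨c, hc⟩ := hq ⟨x, hx⟩
      exact ⟨c, by simpa using congrArg Subtype.val hc⟩
    · rintro ⟨c, rfl⟩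
      exact Hᗮ.smul_mem c q.2
  rw [← h3, Submodule.orthogonal_orthogonal]

/-! ### Lines -/

theorem good_line {n : ℕ} (U : Set (E n)) (hU : Body U) (hu : Unc U) (u : E n)
    (hu1 : ‖u‖ = 1) : Good (secV U (ℝ ∙ u)) := by
  obtain ⟨-, hg1, hg2, hg3, hg4, -, -, -, -⟩ := hGB U hU
  have hu0 : u ≠ 0 := by
    intro h
    rw [h, norm_zero] at hu1
    exact zero_ne_one hu1
  let g : (Fin n → ℝ) → ℝ := fun x => gauge U (WithLp.toLp 2 x)
  have g3 : ∀ (c : ℝ) x, g (c • x) = |c| * g x := fun c x => by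
    change gauge U (WithLp.toLp 2 (c • x)) = |c| * gauge U (WithLp.toLp 2 x)
    rw [WithLp.toLp_smul, hg3]
  have g4 : ∀ x y, g (x + y) ≤ g x + g y := fun x y => by
    change gauge U (WithLp.toLp 2 (x + y)) ≤ _
    rw [WithLp.toLp_add]
    exact hg4 _ _
  have g5 : ∀ (i : Fin n) x, g (Function.update x i (-(x i))) = g x := by
    intro i x
    have himg := flip_image U hu i
    have hgs := ((hGS U hU).2 (Dg (flip i) (flip_ne i))).2.2 (WithLp.toLp 2 x)
    rw [himg] at hgs
    change gauge U _ = gauge U _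
    rw [← hgs]
    congr 1
    ext j
    rw [Dg_apply]
    by_cases hj : j = i
    · subst hj; simp [flip]
    · simp [Function.update_of_ne hj, flip, hj]
  have gpos : ∀ t : Fin n → ℝ, 0 < g (fun i => Real.exp (t i) * u i) := by
    intro t
    refine hg2 _ ?_
    intro h
    apply hu0
    ext i
    have := congrArg (fun z : E n => z i) h
    simpa using this
  have hval : ∀ t, secV U (ℝ ∙ u) t = 2 * (g (fun i => Real.exp ((-t) i) * u i))⁻¹ := by
    intro t
    have hmem : ∀ r : ℝ, (r • u ∈ scaled t U) ↔ |r| ≤ (g (fun i => Real.exp ((-t) i) * u i))⁻¹ := by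
      intro r
      have e1 : (r • u ∈ scaled t U) ↔ WithLp.toLp 2 (fun i => Real.exp (-(t i)) * (r * u i)) ∈ U := by
        constructor
        · rintro ⟨x, hx, hxr⟩
          have : WithLp.toLp 2 (fun i => Real.exp (-(t i)) * (r * u i)) = x := by
            ext i
            have h := congrArg (fun z : E n => z i) hxr
            simp only [PiLp.smul_apply, smul_eq_mul] at h
            change Real.exp (-(t i)) * (r * u i) = x i
            rw [← h, ← mul_assoc, ← Real.exp_add]
            simp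
          rw [this]
          exact hx
        · intro h
          refine ⟨_, h, ?_⟩
          ext i
          change Real.exp (t i) * (Real.exp (-(t i)) * (r * u i)) = r * u i
          rw [← mul_assoc, ← Real.exp_add]
          simp
      rw [e1, ← hg1]
      have e2 : WithLp.toLp 2 (fun i => Real.exp (-(t i)) * (r * u i)) =
          (r • WithLp.toLp 2 (fun i => Real.exp ((-t) i) * u i) : E n) := by
        ext i
        change Real.exp (-(t i)) * (r * u i) = r * (Real.exp ((-t) i) * u i)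
        rw [Pi.neg_apply]
        ring
      rw [e2, hg3]
      have hp := gpos (-t)
      rw [← one_div, le_div_iff₀ hp]
    have hiso := (LinearIsometryEquiv.toSpanUnitSingleton u hu1).measurePreserving
    have hpre : (LinearIsometryEquiv.toSpanUnitSingleton u hu1) ⁻¹'
        {y : (ℝ ∙ u) | (y : E n) ∈ scaled t U} =
        Icc (-(g (fun i => Real.exp ((-t) i) * u i))⁻¹) ((g (fun i => Real.exp ((-t) i) * u i))⁻¹) := by
      ext r
      rw [mem_preimage, mem_ofPred_eq, mem_Icc, ← abs_le, ← hmem]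
      rfl
    have hvol := hiso.measure_preimage_equiv
      (f := (LinearIsometryEquiv.toSpanUnitSingleton u hu1).toHomeomorph.toMeasurableEquiv)
      {y : (ℝ ∙ u) | (y : E n) ∈ scaled t U}
    unfold secV
    rw [← hvol]
    change (volume ((LinearIsometryEquiv.toSpanUnitSingleton u hu1) ⁻¹'
        {y : (ℝ ∙ u) | (y : E n) ∈ scaled t U})).toReal = _
    rw [hpre, Real.volume_Icc, ENNReal.toReal_ofReal]
    · ring
    · have := inv_pos.2 (gpos (-t))
      linarith
  have hG : Good (fun t : Fin n → ℝ => (g (fun i => Real.exp ((-t) i) * u i))⁻¹) := by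
    refine ⟨fun t => inv_pos.2 (gpos _), fun s t l h0 h1 => ?_⟩
    have key := logconv g g4 g3 g5 (fun i => u i) (-s) (-t) l h0 h1 (gpos _) (gpos _)
    rw [Real.inv_rpow (gpos _).le, Real.inv_rpow (gpos _).le, ← mul_inv]
    have e : (fun i => Real.exp (l * (-s) i + (1 - l) * (-t) i) * u i) =
        (fun i => Real.exp ((-(fun i => l * s i + (1 - l) * t i)) i) * u i) := by
      ext i
      congr 2
      simp only [Pi.neg_apply]
      ring
    rw [e] at key
    exact inv_anti₀ (gpos _) key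
  have := good_smul _ hG 2 two_pos
  rw [show secV U (ℝ ∙ u) = fun t => 2 * (g (fun i => Real.exp ((-t) i) * u i))⁻¹ from
    funext hval]
  exact this

theorem exists_unit {n : ℕ} (H : Submodule ℝ (E n)) (hH : Module.finrank ℝ H = 1) :
    ∃ u : E n, ‖u‖ = 1 ∧ H = ℝ ∙ u := by
  obtain ⟨q, hq0, hq⟩ := finrank_eq_one_iff'.1 hH
  have hq0' : (q : E n) ≠ 0 := by simpa using hq0
  have hn : ‖(q : E n)‖ ≠ 0 := norm_ne_zero_iff.2 hq0'
  refine ⟨‖(q : E n)‖⁻¹ • (q : E n), ?_, ?_⟩
  · rw [norm_smul, norm_inv, norm_norm]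
    exact inv_mul_cancel₀ hn
  · ext x
    rw [Submodule.mem_span_singleton]
    constructor
    · intro hx
      obtain ⟨c, hc⟩ := hq ⟨x, hx⟩
      refine ⟨c * ‖(q : E n)‖, ?_⟩
      rw [smul_smul, mul_assoc, mul_inv_cancel₀ hn, mul_one]
      simpa using congrArg Subtype.val hc
    · rintro ⟨c, rfl⟩
      exact H.smul_mem _ (H.smul_mem _ q.2)

/-! ### The whole space -/

theorem good_top {n : ℕ} (U : Set (E n)) (hU : Body U) : Good (secV U (⊤ : Submodule ℝ (E n))) := by
  obtain ⟨-, -, -, -, -, -, hvpos, -, -⟩ := hGB U hU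
  have hval : ∀ t, secV U (⊤ : Submodule ℝ (E n)) t = vol U * Real.exp (∑ i, t i) := by
    intro t
    have hiso := (LinearIsometryEquiv.ofTop (E n) (⊤ : Submodule ℝ (E n)) rfl).measurePreserving
    have hvol := hiso.measure_preimage_equiv
      (f := (LinearIsometryEquiv.ofTop (E n) (⊤ : Submodule ℝ (E n)) rfl).toHomeomorph.toMeasurableEquiv)
      (scaled t U)
    have h2 := ((hGS U hU).2 (Dg (fun i => Real.exp (t i)) (fun _ => (Real.exp_pos _).ne'))).2.1
    rw [det_Dg, ← Real.exp_sum, abs_of_pos (Real.exp_pos _), ← scaled_eq] at h2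
    unfold secV
    unfold vol at h2
    rw [← hvol] at h2
    rw [mul_comm]
    exact h2
  have hG : Good (fun t : Fin n → ℝ => Real.exp (∑ i, t i)) := by
    refine ⟨fun t => Real.exp_pos _, fun s t l h0 h1 => le_of_eq ?_⟩
    change Real.exp (∑ i, s i) ^ l * Real.exp (∑ i, t i) ^ (1 - l) =
      Real.exp (∑ i, (l * s i + (1 - l) * t i))
    rw [Finset.sum_add_distrib, ← Finset.mul_sum, ← Finset.mul_sum, Real.exp_add,
      ← Real.exp_mul, ← Real.exp_mul, mul_comm (∑ i, s i) l, mul_comm (∑ i, t i) (1 - l)]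
  have := good_smul _ hG (vol U) hvpos
  rw [show secV U (⊤ : Submodule ℝ (E n)) = fun t => vol U * Real.exp (∑ i, t i) from funext hval]
  exact this

/-! ### Together -/

theorem good_all {n : ℕ} (U : Set (E n)) (hU : Body U) (hu : Unc U) (H : Submodule ℝ (E n))
    (h1 : 1 ≤ Module.finrank ℝ H)
    (hH : Module.finrank ℝ H = 1 ∨ Module.finrank ℝ H + 1 = n ∨ Module.finrank ℝ H = n) :
    Good (secV U H) := by
  rcases hH with h | h | h
  · obtain ⟨u, hu1, rfl⟩ := exists_unit H h
    exact good_line U hU hu u hu1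
  · obtain ⟨N, rfl⟩ : ∃ N, n = N + 2 := ⟨n - 2, by omega⟩
    obtain ⟨q, hq, rfl⟩ := exists_normal H h
    exact good_hyper U hU hu q hq
  · have : H = ⊤ := by
      apply Submodule.eq_top_of_finrank_eq
      rw [finrank_euclideanSpace_fin]
      exact h
    subst this
    exact good_top U hU

theorem good_small {n : ℕ} (hn : n ≤ 3) (U : Set (E n)) (hU : Body U) (hu : Unc U)
    (H : Submodule ℝ (E n)) (h1 : 1 ≤ Module.finrank ℝ H) : Good (secV U H) := by
  refine good_all U hU hu H h1 ?_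
  have h2 := Submodule.finrank_le H
  rw [finrank_euclideanSpace_fin] at h2
  omega

end Pool.Agent.H910.HS
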